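import Pool.Agent.H69.GN.Stm
import Pool.Agent.H69.GN.Stm2
import Pool.Agent.H69.GN.Fin2
import Pool.Agent.H69.GN.Conv
import Pool.Agent.H49.GN.NOR
import Pool.Agent.H10.GN.SPL
import Pool.Agent.H10.GN.CEN
import Pool.Agent.H26.GN.UNQ
import Pool.Agent.H22.GN.GNU
import Pool.Agent.H12.GN.Nice
import Pool.Agent.H55.GN.GCP
import Pool.Agent.H9.GN.CNT
import Pool.Agent.H89.GN.FCT
import Pool.Agent.H89.GN.IND
import Pool.Agent.H64.GN.PRM
import Pool.Agent.H40.GN.ORD

/-!
# MP_d11331_al: numbers of independent sets of forests are group numbers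

`IsGnu n k` says, in the words of the frozen statement, that there are exactly `k` groups of
order `n` up to isomorphism. `indep G` is the number of the independent sets (the empty set
included) of the finite graph `G`.

Theorem. For every finite forest `G` there is an odd squarefree `n` with exactly `indep G` groups
of order `n`. Conversely, if `V` is a finite set of odd primes such that each `p ∈ V` divides
`q - 1` for at most one `q ∈ V`, then the number of groups of order `∏ V` is `indep G` for some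
finite forest `G`.
-/

set_option autoImplicit false

namespace Pool.Agent.Results.MP_d11331_al.ForestNumbers

open Pool.Agent.H69.GN Finset

/-- there are exactly `k` groups of order `n` up to isomorphism -/
def IsGnu (n k : ℕ) : Prop :=
  ∃ (G : Fin k → Type) (_ : ∀ i, Group (G i)),
    (∀ i, Nat.card (G i) = n) ∧
    (∀ i j, Nonempty (G i ≃* G j) → i = j) ∧
    ∀ (H : Type) [Group H], Nat.card H = n → ∃ i, Nonempty (H ≃* G i)

/-- the number of the independent sets of a finite graph -/
noncomputable def indep {V : Type} (G : SimpleGraph V) : ℕ :=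
  Nat.card {S : Finset V // ∀ x ∈ S, ∀ y ∈ S, ¬ G.Adj x y}

lemma indep_pos {V : Type} [Finite V] (G : SimpleGraph V) : 0 < indep G := by
  classical
  have : Fintype V := Fintype.ofFinite V
  have : Nonempty {S : Finset V // ∀ x ∈ S, ∀ y ∈ S, ¬ G.Adj x y} := ⟨⟨∅, by simp⟩⟩
  exact Nat.card_pos

lemma isGnu_of_gnu {n k : ℕ} (hn : 0 < n) (hk : 0 < k) (h : gnu n = k) : IsGnu n k := by
  unfold gnu at h
  have hfin : Finite (Quotient (isoSetoid n)) := by
    apply Nat.finite_of_card_ne_zero
    omega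
  obtain ⟨e⟩ : Nonempty (Fin k ≃ Quotient (isoSetoid n)) := by
    rw [← h]
    exact ⟨(Finite.equivFin (Quotient (isoSetoid n))).symm⟩
  refine ⟨fun i => (e i).out.carrier, fun i => (e i).out.grp, fun i => (e i).out.card_eq, ?_, ?_⟩
  · rintro i j hij
    have h1 : (e i).out ≈ (e j).out := hij
    have h2 : e i = e j := by
      rw [← Quotient.out_eq (e i), ← Quotient.out_eq (e j)]
      exact Quotient.sound h1
    exact e.injective h2
  · intro H _ hH
    have : Finite H := Nat.finite_of_card_ne_zero (by omega)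
    refine ⟨e.symm (Quotient.mk _ (⟨H, hH⟩ : FinGrp n)), ?_⟩
    have h1 : (⟨H, hH⟩ : FinGrp n) ≈ (e (e.symm (Quotient.mk _ (⟨H, hH⟩ : FinGrp n)))).out := by
      rw [Equiv.apply_symm_apply]
      exact Quotient.exact (Quotient.out_eq _).symm
    exact h1

theorem result :
    (∀ (V : Type) [Finite V] (G : SimpleGraph V), G.IsAcyclic →
      ∃ n : ℕ, Odd n ∧ Squarefree n ∧ IsGnu n (indep G)) ∧
    (∀ V : Finset ℕ, (∀ p ∈ V, p.Prime ∧ 3 ≤ p) →
      (∀ p ∈ V, ∀ q ∈ V, ∀ q' ∈ V, p ∣ q - 1 → p ∣ q' - 1 → q = q') →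
      ∃ (W : Type) (_ : Finite W) (G : SimpleGraph W), G.IsAcyclic ∧
        IsGnu (∏ v ∈ V, v) (indep G)) := by
  have hGNU : S_GNU := Pool.Agent.H22.GN.t_GNU Pool.Agent.H49.GN.t_NOR Pool.Agent.H10.GN.t_SPL
    (Pool.Agent.H26.GN.unq Pool.Agent.H10.GN.t_CEN)
  have hCNT : S_CNT := Pool.Agent.H9.GN.cnt Pool.Agent.H12.GN.t_TOR Pool.Agent.H55.GN.t_GCP
  refine ⟨?_, ?_⟩
  · intro V _ G hG
    classical
    have : Fintype V := Fintype.ofFinite V
    obtain ⟨n, ho, hsq, hn⟩ := forest hGNU hCNT Pool.Agent.H40.GN.t_ORD Pool.Agent.H64.GN.t_PRM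
      Pool.Agent.H89.GN.fct Pool.Agent.H89.GN.ind V G hG
    refine ⟨n, ho, hsq, isGnu_of_gnu ho.pos (indep_pos G) ?_⟩
    refine hn.trans ?_
    unfold indep
    symm
    apply Nat.subtype_card
    intro S
    rw [mem_filter]
    exact and_iff_right (mem_univ S)
  · intro V h1 h2
    obtain ⟨W, hW, G, hG, hf⟩ := con V ⟨h1, h2⟩
    refine ⟨W, hW, G, hG, isGnu_of_gnu (odd_prod V h1).pos (indep_pos G) ?_⟩
    rw [hGNU _ (squarefree_prod V (fun p hp => (h1 p hp).1)), hCNT V ⟨h1, h2⟩, hf]
    rfl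

end Pool.Agent.Results.MP_d11331_al.ForestNumbers
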