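import Pool.Agent.H69.GN.Stm
import Pool.Agent.H69.GN.Alg
import Pool.Agent.H69.GN.Alg2
import Pool.Agent.H69.GN.Fin
import Pool.Agent.H49.GN.NOR
import Pool.Agent.H10.GN.SPL
import Pool.Agent.H10.GN.CEN
import Pool.Agent.H26.GN.UNQ
import Pool.Agent.H22.GN.GNU
import Pool.Agent.H12.GN.Nice
import Pool.Agent.H55.GN.GCP
import Pool.Agent.H55.GN.EXI
import Pool.Agent.H9.GN.CNT
import Pool.Agent.H9.GN.RIN

/-!
# MP_d11331_al: the group number function is surjective up to powers of two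

`IsGnu n k` says, in the words of the frozen statement, that there are exactly `k` groups of
order `n` up to isomorphism.

Theorem. For every `m ≥ 1` and every `s ≥ 6 (⌊log₂ m⌋ + 1)²` the number `2 ^ s * m` is a group
number `gnu n` for some odd squarefree `n`. So every positive rational number is a quotient of two
group numbers (of odd squarefree orders).

Proof. For squarefree `n` the groups of order `n` are the `ℤ/m ⋊ U`, `U ≤ (ℤ/m)ˣ`, `m * |U| = n`,
each once. For a set `V` of odd primes such that each `p ∈ V` divides `q - 1` for at most one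
`q ∈ V` the number of such pairs with `n = ∏ V` counts the independent sets of a forest. The
caterpillars realise the pairs generated from `(1, 1)` by `(x, y) ↦ (2 ^ a * (x + y), x)`, and a
Euclid-like descent shows that these are all pairs up to powers of two; within three steps of the
descent the quotient of the larger number by the gcd shrinks by the factor `2/3`.
-/

set_option autoImplicit false

namespace Pool.Agent.Results.MP_d11331_al.UpToPowersOfTwo

open Pool.Agent.H69.GN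

/-- there are exactly `k` groups of order `n` up to isomorphism -/
def IsGnu (n k : ℕ) : Prop :=
  ∃ (G : Fin k → Type) (_ : ∀ i, Group (G i)),
    (∀ i, Nat.card (G i) = n) ∧
    (∀ i j, Nonempty (G i ≃* G j) → i = j) ∧
    ∀ (H : Type) [Group H], Nat.card H = n → ∃ i, Nonempty (H ≃* G i)

lemma isGnu_of_gnu {n k : ℕ} (hn : 0 < n) (hk : 0 < k) (h : gnu n = k) : IsGnu n k := by
  unfold gnu at h
  have hfin : Finite (Quotient (isoSetoid n)) := by
    apply Nat.finite_of_card_ne_zero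
    omega
  obtain ⟨e⟩ : Nonempty (Fin k ≃ Quotient (isoSetoid n)) := by
    rw [← h]
    exact ⟨(Finite.equivFin (Quotient (isoSetoid n))).symm⟩
  refine ⟨fun i => (e i).out.carrier, fun i => (e i).out.grp, fun i => (e i).out.card_eq, ?_, ?_⟩
  · rintro i j hij
    have h1 : (e i).out ≈ (e j).out := hij
    have h2 : e i = e j := by
      rw [← Quotient.out_eq (e i), ← Quotient.out_eq (e j)]
      exact Quotient.sound h1
    exact e.injective h2
  · intro H _ hH
    have : Finite H := Nat.finite_of_card_ne_zero (by omega)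
    refine ⟨e.symm (Quotient.mk _ (⟨H, hH⟩ : FinGrp n)), ?_⟩
    have h1 : (⟨H, hH⟩ : FinGrp n) ≈ (e (e.symm (Quotient.mk _ (⟨H, hH⟩ : FinGrp n)))).out := by
      rw [Equiv.apply_symm_apply]
      exact Quotient.exact (Quotient.out_eq _).symm
    exact h1

theorem result :
    (∀ m : ℕ, 1 ≤ m → ∀ s ≥ 6 * (Nat.log 2 m + 1) ^ 2, ∃ n : ℕ,
      Odd n ∧ Squarefree n ∧ IsGnu n (2 ^ s * m)) ∧
    (∀ q : ℚ, 0 < q → ∃ n n' k k' : ℕ, Odd n ∧ Squarefree n ∧ Odd n' ∧ Squarefree n' ∧
      IsGnu n k ∧ IsGnu n' k' ∧ 0 < k' ∧ q = (k : ℚ) / k') := by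
  have hGNU : S_GNU := Pool.Agent.H22.GN.t_GNU Pool.Agent.H49.GN.t_NOR Pool.Agent.H10.GN.t_SPL
    (Pool.Agent.H26.GN.unq Pool.Agent.H10.GN.t_CEN)
  have hCNT : S_CNT := Pool.Agent.H9.GN.cnt Pool.Agent.H12.GN.t_TOR Pool.Agent.H55.GN.t_GCP
  have key : ∀ m : ℕ, 1 ≤ m → ∀ s ≥ 6 * (Nat.log 2 m + 1) ^ 2, ∃ n : ℕ,
      Odd n ∧ Squarefree n ∧ gnu n = 2 ^ s * m := by
    intro m hm s hs
    obtain ⟨y, hy⟩ := alg2 m hm s hs
    obtain ⟨V, r, hV, -, -, hx, -⟩ := realize Pool.Agent.H12.GN.t_RNI Pool.Agent.H12.GN.t_RUN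
      Pool.Agent.H9.GN.rin Pool.Agent.H55.GN.t_EXI _ _ hy
    have hsq := squarefree_prod V (fun p hp => (hV.1 p hp).1)
    exact ⟨∏ v ∈ V, v, odd_prod V hV.1, hsq, by rw [hGNU _ hsq, hCNT V hV, hx]⟩
  have h : ∀ m : ℕ, 1 ≤ m → ∃ s0 : ℕ, ∀ s ≥ s0, ∃ n : ℕ,
      Odd n ∧ Squarefree n ∧ gnu n = 2 ^ s * m := fun m hm => ⟨_, key m hm⟩
  refine ⟨fun m hm s hs => ?_, fun q hq => ?_⟩
  · obtain ⟨n, ho, hsq, hn⟩ := key m hm s hs
    exact ⟨n, ho, hsq, isGnu_of_gnu ho.pos (by positivity) hn⟩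
  · obtain ⟨n, n', ho, hsq, ho', hsq', hpos, hq'⟩ := ratio h q hq
    have hpos' : 0 < gnu n := by
      rcases Nat.eq_zero_or_pos (gnu n) with h0 | h0
      · rw [h0] at hq'
        simp at hq'
        exact absurd hq' hq.ne'
      · exact h0
    exact ⟨n, n', gnu n, gnu n', ho, hsq, ho', hsq', isGnu_of_gnu ho.pos hpos' rfl,
      isGnu_of_gnu ho'.pos hpos rfl, hpos, hq'⟩

end Pool.Agent.Results.MP_d11331_al.UpToPowersOfTwo
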